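import Pool.Agent.Results.MP_8aa36a_lc.FourRegular
import Pool.Agent.Y376.FA.Prism

/-!
# Faithful drawability of `k`-regular edge-coloured graphs is `∃ℝ`-complete for every `k ≥ 4`

This is Q1 (the case `k = 4`) for all degrees. (For `k = 3` the problem is solvable in polynomial
time.) The proof reduces degree `k` to degree `k + 1`: the prism over `G` consists of two copies of
`G` whose colours are disjoint and of a perfect matching between the copies whose edges have private
colours. A faithful drawing of `G` and its translate by a generic vector, which avoids finitely many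
lines, form a faithful drawing of the prism.

The definitions are those of the file `FourRegular`.
-/

set_option autoImplicit false

namespace Pool.Agent.Results.MP_8aa36a_lc.AllDegrees

open Pool.Agent.NPC Pool.Agent.NPC.ER Pool.Agent.H621R2 Pool.Agent.H621R2.Fd
open Pool.Agent.Results.MP_8aa36a_lc.FourRegular

/-- For every `k ≥ 4` faithful drawability restricted to `k`-regular graphs is `∃ℝ`-complete;
moreover every problem of `∃ℝ` has a polynomial-time reduction to it all of whose values are
properly edge-coloured `k`-regular graphs. -/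
theorem result : ∀ k : ℕ, 4 ≤ k → ERComplete (lang (FaithfulDrawability k)) ∧
    ∀ L : Set (List Bool), InER L → ∃ f : List Bool → CGraph, PolyTime (fun w => bits (f w)) ∧
      (∀ w, IsProperlyColoured (f w) ∧ IsRegular k (f w)) ∧
      ∀ w, w ∈ L ↔ HasFaithfulDrawing (f w) := by
  intro k hk
  obtain ⟨n, rfl⟩ : ∃ n, k = 4 + n := ⟨k - 4, by omega⟩
  have hard : ∀ L : Set (List Bool), InER L → ∃ f : List Bool → CGraph,
      PolyTime (fun w => bits (f w)) ∧ (∀ w, IsProperlyColoured (f w) ∧ IsRegular (4 + n) (f w)) ∧
      ∀ w, w ∈ L ↔ HasFaithfulDrawing (f w) := by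
    rintro L ⟨g, hg, hL⟩
    have h1 : PC (id : List Bool → List Bool) (bits : Fm → List Bool) g :=
      H642R2.TMSim.polyTime_toPC hg
    have h2 : NPC.Poly (fun φ : Fm => Y376.FA.prismN n (graphOf (sysOf φ))) :=
      Y376.FA.poly_prismN n (poly_graphOf (poly_sysOf NPC.Poly.id))
    have h3 : PC (id : List Bool → List Bool) (bits : CGraph → List Bool)
        (fun x => Y376.FA.prismN n (graphOf (sysOf (g x)))) :=
      PC.comp (g := fun φ : Fm => Y376.FA.prismN n (graphOf (sysOf φ)))
        (eb := (bits : Fm → List Bool)) h2 h1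
    have h4 : PC (id : List Bool → List Bool) (id : List Bool → List Bool)
      (fun x => bits (Y376.FA.prismN n (graphOf (sysOf (g x))))) := h3
    refine ⟨fun x => Y376.FA.prismN n (graphOf (sysOf (g x))), PC.toPolyTime h4, fun w => ?_,
      fun w => ?_⟩
    · have := graphOf_valid (sysOf (g w))
      exact ⟨(proper_iff _).2 (Y376.FA.val_prismN this.1 n),
        (regular_iff _ _).2 (Y376.FA.reg_prismN this.2 n)⟩
    · have hv := (graphOf_valid (sysOf (g w))).1
      rw [hL, ← sat_sysOf, drawing_iff (Y376.FA.val_prismN hv n), Y376.FA.fd_prismN hv n]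
      exact graphOf_correct _
  refine ⟨⟨?_, ?_⟩, hard⟩
  · refine H670R2.InER.of_poly (F := fun G : CGraph => F (4 + n) G) (poly_F (4 + n)) ?_
    intro G
    rw [FaithfulDrawability, etr_F, proper_iff, regular_iff]
    constructor
    · rintro ⟨h1, h2⟩
      exact ⟨h1, (drawing_iff h1.1).1 h2⟩
    · rintro ⟨h1, h2⟩
      exact ⟨h1, (drawing_iff h1.1).2 h2⟩
  · intro L hL
    obtain ⟨f, h1, h2, h3⟩ := hard L hL
    refine ⟨fun w => bits (f w), h1, fun w => ?_⟩
    rw [h3]
    constructor
    · intro h
      exact ⟨f w, rfl, h2 w, h⟩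
    · rintro ⟨G, hG, h⟩
      rw [← bits_injective hG]
      exact h.2

end Pool.Agent.Results.MP_8aa36a_lc.AllDegrees
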